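import Pool.Agent.H.MP_7a8a58_gt.h83.Fin

/-!
# MP_7a8a58_gt: bases with virtually cyclic monodromy

Closed integral affine manifolds are presented by developing pairs `IntAffPair n` (defined in
`Pool.Agent.H.MP_7a8a58_gt.h83.Pair`): a connected Hausdorff space `X`, a group `Γ` acting on it freely,
properly discontinuously and cocompactly, a developing map `dev : X → ℝⁿ` which is a local homeomorphism and a
linear holonomy homomorphism `lin : Γ → GL(n, ℤ)`, with `dev (γ x) = lin γ (dev x) + trans γ`;
the closed manifold is `B = Γ \ X`.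
-/

set_option autoImplicit false

namespace Pool.Agent.Results.MP_7a8a58_gt.CyclicMonodromy

open H83T

theorem result (m : ℕ) :
    -- 1. virtually cyclic linear holonomy: completeness, and a finite covering by a torus bundle
    (∀ S : IntAffPair (m + 1), VirtCyclic S.lin.range →
      IsHomeomorph S.dev ∧ (Infinite S.lin.range →
        ∃ Γ' : Subgroup S.Γ, Γ'.FiniteIndex ∧ ∃ M : GL (Fin m) ℤ,
          Nonempty (S.Quot Γ' ≃ₜ TorusBundle M))) ∧
    -- 2. classification for infinite cyclic linear holonomy
    (∀ (B : Type) [TopologicalSpace B],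
      (∃ S : IntAffPair (m + 1), IsCyclic S.lin.range ∧ Infinite S.lin.range ∧
        Nonempty (B ≃ₜ S.Quot ⊤)) ↔
      ∃ M : GL (Fin m) ℤ, ((∀ k : ℤ, M ^ k = 1 → k = 0) ∨
          ((M : Matrix (Fin m) (Fin m) ℤ) - 1).det = 0) ∧
        Nonempty (B ≃ₜ TorusBundle M)) :=
  final m

end Pool.Agent.Results.MP_7a8a58_gt.CyclicMonodromy
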