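import Pool.Agent.H.MP_7a8a58_gt.h83c.Cls

/-!
# MP_7a8a58_gt: which groups and which manifolds occur as bases

Closed integral affine manifolds are presented by developing pairs `IntAffPair n` (defined in
`Pool.Agent.H.MP_7a8a58_gt.h83.Pair`, the closed manifold is `Γ \ X`).  `S.Preserves Γ' V`: the linear parts of the
elements of `Γ'` preserve the rational subspace `V`.  `TF`, `VirtTorus`, `Good`: `Pool.Agent.H.MP_7a8a58_gt.h59.Stmt`.
-/

set_option autoImplicit false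

namespace Pool.Agent.Results.MP_7a8a58_gt.GroupsOfBases

open H83T H59E

/-- the linear holonomy is virtually reducible over `ℚ` -/
def VirtReducible {n : ℕ} (S : IntAffPair n) : Prop :=
  ∃ (Γ' : Subgroup S.Γ) (V : Submodule ℚ (Fin n → ℚ)),
    Γ'.FiniteIndex ∧ V ≠ ⊥ ∧ V ≠ ⊤ ∧ S.Preserves Γ' V

/-- a finitely generated subgroup of finite index is nilpotent of class at most two -/
def VirtClassTwo (Γ : Type) [Group Γ] : Prop :=
  ∃ H : Subgroup Γ, H.FiniteIndex ∧ H.FG ∧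
    ∀ x ∈ H, ∀ y ∈ H, ∀ z ∈ H, (x * y * x⁻¹ * y⁻¹) * z = z * (x * y * x⁻¹ * y⁻¹)

/-- finitely generated subgroups `A`, `B`, `A` abelian and normal, `[B, B] ≤ A`, `A ∩ B` central in `B`,
`A B` of finite index -/
def VirtExt (Γ : Type) [Group Γ] : Prop :=
  ∃ A B : Subgroup Γ, A.Normal ∧ A.FG ∧ B.FG ∧ (∀ x ∈ A, ∀ y ∈ A, x * y = y * x) ∧
    (∀ x ∈ B, ∀ y ∈ B, x * y * x⁻¹ * y⁻¹ ∈ A) ∧ (∀ x ∈ A, x ∈ B → ∀ y ∈ B, x * y = y * x) ∧
    (A ⊔ B).FiniteIndex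

theorem result :
    -- 1. dimension three, virtually reducible linear holonomy: a finite covering of the base is a torus bundle
    (∀ S : IntAffPair 3, VirtReducible S → ∃ (Γ' : Subgroup S.Γ) (M : GL (Fin 2) ℤ),
      Γ'.FiniteIndex ∧ Nonempty (S.Quot Γ' ≃ₜ TorusBundle M)) ∧
    -- 2. dimension three: the groups of these closed integral affine manifolds
    (∀ (Γ : Type) [Group Γ], (∃ S : IntAffPair 3, VirtReducible S ∧ Nonempty (S.Γ ≃* Γ)) ↔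
      TF Γ ∧ ∃ M : GL (Fin 2) ℤ, VirtTorus Γ 2 M) ∧
    -- 3. all dimensions: groups with a subgroup of finite index isomorphic to `ℤ^q ⋊_M ℤ`
    (∀ (Γ : Type) [Group Γ] (q : ℕ) (M : GL (Fin q) ℤ),
      TF Γ → VirtTorus Γ q M → Good Γ (q + 1)) ∧
    -- 4. virtually nilpotent groups of class at most two, and a more general form
    (∀ (Γ : Type) [Group Γ], TF Γ → VirtClassTwo Γ ∨ VirtExt Γ → ∃ n : ℕ, Good Γ n) := by
  refine ⟨?_, ?_, fun Γ _ q M h1 h2 => main_torus h1 h2, ?_⟩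
  · rintro S ⟨Γ', V, hf, h0, h1, hp⟩
    obtain ⟨Γ'', hf', M, hM⟩ := torusCover3 S Γ' hf V h0 h1 hp
    exact ⟨Γ'', M, hf', hM.1⟩
  · intro Γ _
    rw [← groups3 Γ]
    constructor
    · rintro ⟨S, ⟨Γ', V, hf, h0, h1, hp⟩, he⟩
      exact ⟨S, Γ', V, he, hf, h0, h1, hp⟩
    · rintro ⟨S, Γ', V, he, hf, h0, h1, hp⟩
      exact ⟨S, ⟨Γ', V, hf, h0, h1, hp⟩, he⟩
  · rintro Γ _ htf (⟨H, h2, h3, h4⟩ | ⟨A, B, h2, h3, h4, h5, h6, h7, h8⟩)
    · obtain ⟨q, p, -, h⟩ := main_two htf H h2 h3 (fun x hx y hy z hz => h4 x hx y hy z hz)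
      exact ⟨q + p, h⟩
    · obtain ⟨q, p, -, h⟩ := main_u htf A B h2 h3 h4 h5 h7 (fun x hx y hy => h6 x hx y hy) h8
      exact ⟨q + p, h⟩

end Pool.Agent.Results.MP_7a8a58_gt.GroupsOfBases
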