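import Pool.Agent.H.MP_7a8a58_gt.h83.Vc

/-!
# MP_7a8a58_gt: Markus conjecture for virtually cyclic linear holonomy

A closed affine manifold `B = Γ \ X` with parallel volume, given by a developing map `D : X → E`
(`X` connected Hausdorff, `Γ` acting properly discontinuously and cocompactly), whose linear holonomy
group `L(Γ)` is virtually cyclic, is complete: `D` is a homeomorphism.
-/

set_option autoImplicit false

namespace Pool.Agent.Results.MP_7a8a58_gt.MarkusCyclic

theorem result {E : Type*} [NormedAddCommGroup E] [NormedSpace ℝ E]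
    [FiniteDimensional ℝ E] {X : Type*} [TopologicalSpace X] [T2Space X] [ConnectedSpace X]
    {Γ : Type*} [Group Γ] [MulAction Γ X] [ContinuousConstSMul Γ X]
    [ProperlyDiscontinuousSMul Γ X] (D : X → E) (L : Γ →* (E ≃ₗ[ℝ] E)) (b : Γ → E)
    (hD : IsLocalHomeomorph D) (heq : ∀ (γ : Γ) (x : X), D (γ • x) = L γ (D x) + b γ)
    (hco : ∃ K : Set X, IsCompact K ∧ ∀ x : X, ∃ γ : Γ, γ • x ∈ K)
    (hdet : ∀ γ : Γ, |LinearMap.det (L γ : E →ₗ[ℝ] E)| = 1)
    (hvc : ∃ g : L.range, (Subgroup.zpowers g).FiniteIndex) : IsHomeomorph D :=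
  H83T.markus_virtually_cyclic D L b hD heq hco hdet hvc

end Pool.Agent.Results.MP_7a8a58_gt.MarkusCyclic
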