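import Pool.Agent.H.MP_7a8a58_gt.h83c.FnD

/-!
# MP_7a8a58_gt: bases with virtually reducible monodromy

Closed integral affine manifolds are presented by developing pairs `IntAffPair n` (defined in
`Pool.Agent.H.MP_7a8a58_gt.h83.Pair`): a connected Hausdorff space `X`, a group `Γ` acting on it freely,
properly discontinuously and cocompactly, a developing map `dev : X → ℝⁿ` which is a local homeomorphism and a
linear holonomy homomorphism `lin : Γ → GL(n, ℤ)`, with `dev (γ x) = lin γ (dev x) + trans γ`;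
the closed manifold is `B = Γ \ X`.
-/

set_option autoImplicit false

namespace Pool.Agent.Results.MP_7a8a58_gt.ReducibleMonodromy

open H83T

theorem result :
    -- 1. dimension three: a subgroup of finite index preserves a proper nonzero subspace of `ℚ³`
    (∀ (S : IntAffPair 3) (Γ' : Subgroup S.Γ) (V : Submodule ℚ (Fin 3 → ℚ)), Γ'.FiniteIndex →
      V ≠ ⊥ → V ≠ ⊤ → S.Preserves Γ' V → S.IsQuotientOfRn) ∧
    -- 2. all dimensions: block form [[A, B], [0, 1]] with `A` of size two or in a cyclic group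
    (∀ (k m : ℕ) (S : IntAffPair (k + m)) (Γ' : Subgroup S.Γ) (P : GL (Fin (k + m)) ℤ)
      (A : S.Γ → Matrix (Fin k) (Fin k) ℤ) (B : S.Γ → Matrix (Fin k) (Fin m) ℤ),
      Γ'.FiniteIndex → (∀ γ ∈ Γ', IsBlock (P * S.lin γ * P⁻¹) (A γ) (B γ) 1) →
      (k = 2 ∨ ∃ M₀ : GL (Fin k) ℤ, ∀ γ ∈ Γ', ∃ j : ℤ, A γ = (M₀ ^ j).val) →
      S.IsQuotientOfRn) ∧
    -- 3. all dimensions: block form [[U, B], [0, A]] with `U` unipotent, `A` of size two
    (∀ (m : ℕ) (S : IntAffPair (m + 2)) (Γ' : Subgroup S.Γ) (P : GL (Fin (m + 2)) ℤ)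
      (U : S.Γ → Matrix (Fin m) (Fin m) ℤ) (B : S.Γ → Matrix (Fin m) (Fin 2) ℤ)
      (A : S.Γ → Matrix (Fin 2) (Fin 2) ℤ),
      Γ'.FiniteIndex → (∀ γ ∈ Γ', IsBlock (P * S.lin γ * P⁻¹) (U γ) (B γ) (A γ)) →
      (∀ γ ∈ Γ', IsUnitriangular (U γ)) → S.IsQuotientOfRn) :=
  ⟨fun S Γ' V h h0 h1 h2 => final3 S Γ' h V h0 h1 h2,
    fun k m S Γ' P A B h hb hk => finalT k m S Γ' h P A B hb hk,
    fun m S Γ' P U B A h hb hU => finalU m S Γ' h P U B A hb hU⟩

end Pool.Agent.Results.MP_7a8a58_gt.ReducibleMonodromy
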